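import Pool.Agent.J4H45.GT.Stm0

set_option autoImplicit false

/-!
# Counting: a subset of small leak (helper31, project GT of helper45)
-/

namespace Pool.Agent.J4H31.GT

open Finset Pool.Agent.J4H45.GT

section Graph

variable {P : Type} [DecidableEq P]

/-- the total weight of the ordered pairs of different elements -/
noncomputable def WW (w : P → P → ℝ) (B : Finset P) : ℝ := ∑ p ∈ B, ∑ p' ∈ B.erase p, w p p'

theorem WW_nonneg (w : P → P → ℝ) (hw : ∀ p p', 0 ≤ w p p') (B : Finset P) : 0 ≤ WW w B :=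
  sum_nonneg fun p _ => sum_nonneg fun p' _ => hw p p'

theorem WW_erase (w : P → P → ℝ) (B : Finset P) (q : P) (hq : q ∈ B) :
    WW w B = WW w (B.erase q) + (∑ p' ∈ B.erase q, w q p' + ∑ p ∈ B.erase q, w p q) := by
  unfold WW
  rw [← add_sum_erase B _ hq]
  have h : ∀ p ∈ B.erase q, ∑ p' ∈ B.erase p, w p p' = w p q + ∑ p' ∈ (B.erase q).erase p, w p p' := by
    intro p hp
    have hqp : q ∈ B.erase p := by
      rw [mem_erase] at hp ⊢
      exact ⟨hp.1.symm, hq⟩
    rw [← add_sum_erase (B.erase p) _ hqp, erase_right_comm]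
  rw [sum_congr rfl h, sum_add_distrib]
  ring

theorem WW_double (w : P → P → ℝ) (B : Finset P) :
    ∑ q ∈ B, (∑ p' ∈ B.erase q, w q p' + ∑ p ∈ B.erase q, w p q) = 2 * WW w B := by
  rw [sum_add_distrib]
  have h : ∑ q ∈ B, ∑ p ∈ B.erase q, w p q = ∑ p ∈ B, ∑ q ∈ B.erase p, w p q := by
    refine sum_comm' ?_
    intro x y
    rw [mem_erase, mem_erase]
    constructor
    · rintro ⟨h1, h2, h3⟩
      exact ⟨⟨h2.symm, h1⟩, h3⟩
    · rintro ⟨⟨h1, h2⟩, h3⟩
      exact ⟨h2, h1.symm, h3⟩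
  rw [h]
  unfold WW
  ring

/-- a subset with at most the average weight -/
theorem select_pairs (w : P → P → ℝ) (hw : ∀ p p', 0 ≤ w p p') (m : ℕ) (hm : 1 ≤ m) :
    ∀ (n : ℕ) (B : Finset P), B.card = m + n → ∃ B' ⊆ B, B'.card = m ∧
      WW w B' * (B.card * (B.card - 1)) ≤ WW w B * (m * (m - 1)) := by
  intro n
  induction n with
  | zero =>
    intro B hB
    refine ⟨B, Subset.refl _, by simpa using hB, ?_⟩
    rw [add_zero] at hB
    rw [hB]
  | succ n ih =>
    intro B hB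
    have hne : B.Nonempty := by rw [← card_pos]; omega
    obtain ⟨q, hq, hmax⟩ := B.exists_max_image (fun q => ∑ p' ∈ B.erase q, w q p' + ∑ p ∈ B.erase q, w p q) hne
    have hc : (B.erase q).card = m + n := by rw [card_erase_of_mem hq]; omega
    obtain ⟨B', hB', hB'c, hle⟩ := ih (B.erase q) hc
    refine ⟨B', hB'.trans (erase_subset _ _), hB'c, ?_⟩
    have h1 := WW_erase w B q hq
    have h2 := WW_double w B
    have h3 : 2 * WW w B ≤ B.card * (∑ p' ∈ B.erase q, w q p' + ∑ p ∈ B.erase q, w p q) := by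
      rw [← h2]
      have := sum_le_card_nsmul B _ _ hmax
      rwa [nsmul_eq_mul] at this
    have hb : (B.card : ℝ) = m + n + 1 := by rw [hB]; push_cast; ring
    have hb' : ((B.erase q).card : ℝ) = m + n := by rw [hc]; push_cast; ring
    rw [hb'] at hle
    rw [hb] at h3 ⊢
    have hm' : (1 : ℝ) ≤ m := by exact_mod_cast hm
    have hn' : (0 : ℝ) ≤ n := Nat.cast_nonneg n
    have hW := WW_nonneg w hw B
    have hW1 := WW_nonneg w hw (B.erase q)
    -- `b W (B - q) ≤ (b - 2) W B`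
    have h4 : ((m : ℝ) + n + 1) * WW w (B.erase q) ≤ ((m : ℝ) + n - 1) * WW w B := by
      have e1 : WW w (B.erase q) = WW w B - (∑ p' ∈ B.erase q, w q p' + ∑ p ∈ B.erase q, w p q) := by linarith
      rw [e1]
      linarith
    rcases Nat.lt_or_ge 1 (m + n) with h5 | h5
    · have hpos : (0 : ℝ) < (m : ℝ) + n - 1 := by
        have : (2 : ℝ) ≤ (m : ℝ) + n := by exact_mod_cast h5
        linarith
      have hmm : 0 ≤ (m : ℝ) * (m - 1) := mul_nonneg (by linarith) (by linarith)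
      have h6 : ((m : ℝ) + n - 1) * (WW w B' * (((m : ℝ) + n + 1) * ((m : ℝ) + n + 1 - 1))) ≤
          ((m : ℝ) + n - 1) * (WW w B * (m * (m - 1))) := by
        calc ((m : ℝ) + n - 1) * (WW w B' * (((m : ℝ) + n + 1) * ((m : ℝ) + n + 1 - 1)))
            = ((m : ℝ) + n + 1) * (WW w B' * (((m : ℝ) + n) * ((m : ℝ) + n - 1))) := by ring
          _ ≤ ((m : ℝ) + n + 1) * (WW w (B.erase q) * (m * (m - 1))) :=
              mul_le_mul_of_nonneg_left hle (by linarith)
          _ = (((m : ℝ) + n + 1) * WW w (B.erase q)) * (m * (m - 1)) := by ring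
          _ ≤ (((m : ℝ) + n - 1) * WW w B) * (m * (m - 1)) := mul_le_mul_of_nonneg_right h4 hmm
          _ = _ := by ring
      exact le_of_mul_le_mul_left h6 hpos
    · have hm1 : m = 1 := by omega
      subst hm1
      obtain ⟨a, rfl⟩ := card_eq_one.1 hB'c
      have : WW w {a} = 0 := by
        unfold WW
        simp
      rw [this]
      simp

end Graph

theorem t_CNT : S_CN0 → S_CNT := by
  intro hCN0 Θ _ _ P _ ζ B θ ε E h1 h2 hε hε1 hE h3 h4
  have hcard : (1 : ℝ) ≤ Fintype.card Θ := by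
    have : 0 < Fintype.card Θ := Fintype.card_pos_iff.2 ⟨1⟩
    exact_mod_cast this
  have hlog : 0 ≤ Real.log (Fintype.card Θ) := Real.log_nonneg hcard
  have hε2 : 0 < ε ^ 2 := by positivity
  have hε2' : ε ^ 2 ≤ 1 := by nlinarith
  rcases Nat.lt_or_ge B.card 2 with hb | hb
  · have : (B.card : ℝ) ≤ 1 := by
      have : B.card ≤ 1 := by omega
      exact_mod_cast this
    have h5 : 0 ≤ 64 * E * Real.log (Fintype.card Θ) / ε ^ 2 := by positivity
    linarith
  have hb' : (2 : ℝ) ≤ B.card := by exact_mod_cast hb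
  set t : ℝ := ((B.card : ℝ) - 1) * ε ^ 2 / (16 * E) with ht
  have hE0 : 0 < 16 * E := by linarith
  have ht0 : 0 ≤ t := by
    rw [ht]
    exact div_nonneg (mul_nonneg (by linarith) hε2.le) hE0.le
  have ht1 : t ≤ (B.card : ℝ) - 1 := by
    rw [ht, div_le_iff₀ hE0]
    have e1 : ((B.card : ℝ) - 1) * ε ^ 2 ≤ ((B.card : ℝ) - 1) * 1 := mul_le_mul_of_nonneg_left hε2' (by linarith)
    have e2 : ((B.card : ℝ) - 1) * 1 ≤ ((B.card : ℝ) - 1) * (16 * E) := mul_le_mul_of_nonneg_left (by linarith) (by linarith)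
    linarith
  obtain ⟨m, hm⟩ : ∃ m : ℕ, m = ⌊t⌋₊ + 1 := ⟨_, rfl⟩
  have hm1 : t < m := by rw [hm]; push_cast; exact Nat.lt_floor_add_one t
  have hm2 : (m : ℝ) - 1 ≤ t := by
    have := Nat.floor_le ht0
    rw [hm]
    push_cast
    linarith
  have hmB : m ≤ B.card := by
    have : (m : ℝ) ≤ B.card := by linarith
    exact_mod_cast this
  set w : P → P → ℝ := fun p p' => ‖1 - ζ p' (θ p)‖ ^ 2 with hw
  have hw0 : ∀ p p', 0 ≤ w p p' := fun p p' => by rw [hw]; positivity
  obtain ⟨B', hB', hB'c, hle⟩ := select_pairs w hw0 m (by omega) (B.card - m) B (by omega)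
  have hWB : WW w B ≤ B.card * E := by
    unfold WW
    have := sum_le_card_nsmul B _ _ h4
    rwa [nsmul_eq_mul] at this
  have hmpos : (1 : ℝ) ≤ m := by
    have : 1 ≤ m := by omega
    exact_mod_cast this
  have h5 : WW w B' ≤ ε ^ 2 / 16 * B'.card := by
    rw [hB'c]
    have e1 : WW w B' * (B.card * (B.card - 1)) ≤ (B.card * E) * (m * (m - 1)) :=
      hle.trans (mul_le_mul_of_nonneg_right hWB (mul_nonneg (by linarith) (by linarith)))
    have e2 : (B.card * E) * ((m : ℝ) * (m - 1)) ≤ (B.card * E) * (m * t) :=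
      mul_le_mul_of_nonneg_left (mul_le_mul_of_nonneg_left hm2 (by linarith)) (by positivity)
    have e3 : (B.card * E) * ((m : ℝ) * t) = (ε ^ 2 / 16 * m) * (B.card * (B.card - 1)) := by
      rw [ht]
      field_simp
    have e4 : (0 : ℝ) < B.card * (B.card - 1) := mul_pos (by linarith) (by linarith)
    have e5 : WW w B' * (B.card * (B.card - 1)) ≤ (ε ^ 2 / 16 * m) * (B.card * (B.card - 1)) := by linarith
    exact le_of_mul_le_mul_right e5 e4
  have h6 := hCN0 Θ P ζ B' θ ε h1 h2 hε (fun p hp => h3 p (hB' hp)) h5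
  rw [hB'c] at h6
  have h7 : t ≤ 4 * Real.log (Fintype.card Θ) := by linarith
  rw [ht, div_le_iff₀ hE0] at h7
  have h8 : (B.card : ℝ) - 1 ≤ 64 * E * Real.log (Fintype.card Θ) / ε ^ 2 := by
    rw [le_div_iff₀ hε2]
    linarith
  linarith

end Pool.Agent.J4H31.GT
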