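import Pool.Agent.J4H45.GT.Stm0

set_option autoImplicit false

/-!
# A light combination is small outside one pair (helper31, project GT of helper45)
-/

namespace Pool.Agent.J4H31.GT

open Finset Pool.Agent.J4H45.GT

theorem split {k : ℕ} (s : Finset (Fin k)) (r : Fin k → ℝ) (hr : ∀ i, 0 ≤ r i) (K : ℝ)
    (h : ∑ i ∈ s, min 1 (r i) ≤ K) :
    ∑ i ∈ s.filter (fun i => r i < 1), r i ≤ K ∧ ((s.filter (fun i => 1 ≤ r i)).card : ℝ) ≤ K := by
  have hn : ∀ i ∈ s, 0 ≤ min 1 (r i) := fun i _ => le_min zero_le_one (hr i)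
  constructor
  · refine le_trans (le_of_eq ?_) ((sum_le_sum_of_subset_of_nonneg (filter_subset (fun i => r i < 1) s)
      fun i hi _ => hn i hi).trans h)
    refine sum_congr rfl fun i hi => ?_
    rw [min_eq_right (mem_filter.1 hi).2.le]
  · have h1 : ((s.filter (fun i => 1 ≤ r i)).card : ℝ) = ∑ i ∈ s.filter (fun i => 1 ≤ r i), min 1 (r i) := by
      rw [card_eq_sum_ones, Nat.cast_sum]
      refine sum_congr rfl fun i hi => ?_
      rw [min_eq_left (mem_filter.1 hi).2, Nat.cast_one]
    rw [h1]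
    exact (sum_le_sum_of_subset_of_nonneg (filter_subset _ _) fun i hi _ => hn i hi).trans h

theorem t_LGE : S_LGE := by
  intro k i0 j0 e K he hK hC hR
  set r : Fin k → ℝ := fun i => ∑ j, e i j with hr
  set c : Fin k → ℝ := fun j => ∑ i, e i j with hc
  have hr0 : ∀ i, 0 ≤ r i := fun i => sum_nonneg fun j _ => (he i j).1
  have hc0 : ∀ j, 0 ≤ c j := fun j => sum_nonneg fun i _ => (he i j).1
  obtain ⟨hC1, hC2⟩ := split (univ.erase j0) c hc0 K hC
  obtain ⟨hR1, hR2⟩ := split (univ.erase i0) r hr0 K hR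
  set RL := (univ.erase i0).filter (fun i => r i < 1) with hRL
  set CL := (univ.erase j0).filter (fun j => c j < 1) with hCL
  set RH := insert i0 ((univ.erase i0).filter (fun i => 1 ≤ r i)) with hRH
  set CH := insert j0 ((univ.erase j0).filter (fun j => 1 ≤ c j)) with hCH
  have h1 : ∀ p : Fin k × Fin k, e p.1 p.2 ≤ ((if p.1 ∈ RL then e p.1 p.2 else 0) +
      (if p.2 ∈ CL then e p.1 p.2 else 0)) + (if p.1 ∈ RH ∧ p.2 ∈ CH then 4 else 0) := by
    rintro ⟨i, j⟩
    simp only
    have h0 := (he i j).1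
    by_cases hi : i ∈ RL
    · rw [if_pos hi]
      have a1 : 0 ≤ (if j ∈ CL then e i j else 0) := by split_ifs <;> linarith
      have a2 : (0 : ℝ) ≤ (if i ∈ RH ∧ j ∈ CH then 4 else 0) := by split_ifs <;> norm_num
      linarith
    · by_cases hj : j ∈ CL
      · rw [if_pos hj]
        have a1 : 0 ≤ (if i ∈ RL then e i j else 0) := by split_ifs <;> linarith
        have a2 : (0 : ℝ) ≤ (if i ∈ RH ∧ j ∈ CH then 4 else 0) := by split_ifs <;> norm_num
        linarith
      · have b1 : i ∈ RH := by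
          rw [hRH, mem_insert, mem_filter, mem_erase]
          by_cases hii : i = i0
          · exact Or.inl hii
          · right
            refine ⟨⟨hii, mem_univ _⟩, ?_⟩
            by_contra hlt
            push Not at hlt
            exact hi (by rw [hRL, mem_filter, mem_erase]; exact ⟨⟨hii, mem_univ _⟩, hlt⟩)
        have b2 : j ∈ CH := by
          rw [hCH, mem_insert, mem_filter, mem_erase]
          by_cases hjj : j = j0
          · exact Or.inl hjj
          · right
            refine ⟨⟨hjj, mem_univ _⟩, ?_⟩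
            by_contra hlt
            push Not at hlt
            exact hj (by rw [hCL, mem_filter, mem_erase]; exact ⟨⟨hjj, mem_univ _⟩, hlt⟩)
        rw [if_neg hi, if_neg hj, if_pos ⟨b1, b2⟩]
        have := (he i j).2
        linarith
  have h2 : ∑ p ∈ univ.erase (i0, j0), e p.1 p.2 ≤ ∑ p : Fin k × Fin k, e p.1 p.2 :=
    sum_le_sum_of_subset_of_nonneg (subset_univ _) fun p _ _ => (he p.1 p.2).1
  have h3 : ∑ p : Fin k × Fin k, (if p.1 ∈ RL then e p.1 p.2 else 0) = ∑ i ∈ RL, r i := by
    rw [Fintype.sum_prod_type, ← sum_filter_add_sum_filter_not univ (fun i => i ∈ RL)]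
    have e1 : ∑ i ∈ univ.filter (fun i => ¬ i ∈ RL), ∑ j, (if (i, j).1 ∈ RL then e (i, j).1 (i, j).2 else 0) = 0 :=
      sum_eq_zero fun i hi => sum_eq_zero fun j _ => if_neg (mem_filter.1 hi).2
    rw [e1, add_zero]
    have e2 : univ.filter (fun i => i ∈ RL) = RL := by ext i; simp
    rw [e2]
    exact sum_congr rfl fun i hi => sum_congr rfl fun j _ => if_pos hi
  have h4 : ∑ p : Fin k × Fin k, (if p.2 ∈ CL then e p.1 p.2 else 0) = ∑ j ∈ CL, c j := by
    rw [Fintype.sum_prod_type_right, ← sum_filter_add_sum_filter_not univ (fun j => j ∈ CL)]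
    have e1 : ∑ j ∈ univ.filter (fun j => ¬ j ∈ CL), ∑ i, (if (i, j).2 ∈ CL then e (i, j).1 (i, j).2 else 0) = 0 :=
      sum_eq_zero fun j hj => sum_eq_zero fun i _ => if_neg (mem_filter.1 hj).2
    rw [e1, add_zero]
    have e2 : univ.filter (fun j => j ∈ CL) = CL := by ext i; simp
    rw [e2]
    exact sum_congr rfl fun j hj => sum_congr rfl fun i _ => if_pos hj
  have h5 : ∑ p : Fin k × Fin k, (if p.1 ∈ RH ∧ p.2 ∈ CH then (4 : ℝ) else 0) = 4 * (RH.card * CH.card) := by
    rw [← sum_filter, sum_const, nsmul_eq_mul]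
    have e1 : (univ.filter fun p : Fin k × Fin k => p.1 ∈ RH ∧ p.2 ∈ CH) = RH ×ˢ CH := by
      ext p
      rw [mem_filter, mem_product]
      simp
    rw [e1, card_product]
    push_cast
    ring
  have h6 := sum_le_sum fun (p : Fin k × Fin k) (_ : p ∈ univ) => h1 p
  rw [sum_add_distrib, sum_add_distrib, h3, h4, h5] at h6
  have c1 : (RH.card : ℝ) ≤ K + 1 := by
    have : RH.card ≤ ((univ.erase i0).filter (fun i => 1 ≤ r i)).card + 1 := card_insert_le _ _
    have : (RH.card : ℝ) ≤ ((univ.erase i0).filter (fun i => 1 ≤ r i)).card + 1 := by exact_mod_cast this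
    linarith
  have c2 : (CH.card : ℝ) ≤ K + 1 := by
    have : CH.card ≤ ((univ.erase j0).filter (fun j => 1 ≤ c j)).card + 1 := card_insert_le _ _
    have : (CH.card : ℝ) ≤ ((univ.erase j0).filter (fun j => 1 ≤ c j)).card + 1 := by exact_mod_cast this
    linarith
  have c3 : (RH.card : ℝ) * CH.card ≤ (K + 1) * (K + 1) :=
    mul_le_mul c1 c2 (Nat.cast_nonneg _) (by linarith)
  nlinarith

end Pool.Agent.J4H31.GT
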